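import Pool.Agent.Q211.ZS.Ser

/-!
# Comparison of the stable supremum series with the comparison series
-/

set_option autoImplicit false

open MeasureTheory Filter Topology Set

namespace Pool.Agent.Q211.ZS

theorem gamma_bounds {σ y : ℝ} (h0 : 0 < σ) (h2 : σ < 2) (hy : 0 ≤ y) :
    Real.Gamma (2 + y) ≤ (y + 3) ^ 2 * Real.Gamma (σ + y) ∧
      Real.Gamma (σ + y) ≤ (y + 3) ^ 2 / σ * Real.Gamma (2 + y) := by
  have hg := Real.Gamma_strictMonoOn_Ici.monotoneOn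
  have e1 : Real.Gamma (σ + y + 2) = (σ + y + 1) * ((σ + y) * Real.Gamma (σ + y)) := by
    rw [show σ + y + 2 = (σ + y + 1) + 1 by ring, Real.Gamma_add_one (by positivity),
      Real.Gamma_add_one (by positivity)]
  have e2 : Real.Gamma (2 + y + 2) = (2 + y + 1) * ((2 + y) * Real.Gamma (2 + y)) := by
    rw [show 2 + y + 2 = (2 + y + 1) + 1 by ring, Real.Gamma_add_one (by positivity),
      Real.Gamma_add_one (by positivity)]
  have hG1 : 0 < Real.Gamma (σ + y) := Real.Gamma_pos_of_pos (by positivity)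
  have hG2 : 0 < Real.Gamma (2 + y) := Real.Gamma_pos_of_pos (by positivity)
  constructor
  · have h3 : Real.Gamma (2 + y) ≤ Real.Gamma (σ + y + 2) :=
      hg (by simp only [mem_Ici]; linarith) (by simp only [mem_Ici]; linarith) (by linarith)
    rw [e1] at h3
    refine h3.trans ?_
    rw [← mul_assoc]
    refine mul_le_mul_of_nonneg_right ?_ hG1.le
    nlinarith
  · have h3 : Real.Gamma (σ + y + 2) ≤ Real.Gamma (2 + y + 2) :=
      hg (by simp only [mem_Ici]; linarith) (by simp only [mem_Ici]; linarith) (by linarith)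
    rw [e1, e2] at h3
    have h4 : σ * Real.Gamma (σ + y) ≤ (σ + y + 1) * ((σ + y) * Real.Gamma (σ + y)) := by
      have h5 : σ * Real.Gamma (σ + y) ≤ (σ + y) * Real.Gamma (σ + y) := by
        refine mul_le_mul_of_nonneg_right (by linarith) hG1.le
      have h6 : 0 ≤ (σ + y) * Real.Gamma (σ + y) := by positivity
      nlinarith
    have h7 : σ * Real.Gamma (σ + y) ≤ (y + 3) ^ 2 * Real.Gamma (2 + y) := by
      refine (h4.trans h3).trans ?_
      rw [← mul_assoc]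
      refine mul_le_mul_of_nonneg_right ?_ hG2.le
      nlinarith
    rw [div_mul_eq_mul_div, le_div_iff₀ h0]
    linarith

theorem sq_bound {y : ℝ} {t : ℕ} (hy : 0 ≤ y) (h : y ≤ 2 * t) : (y + 3) ^ 2 ≤ 9 * 4 ^ t := by
  have h1 : ((t + 1 : ℕ) : ℝ) ≤ 2 ^ t := by
    have : t + 1 ≤ 2 ^ t := Nat.lt_two_pow_self
    exact_mod_cast this
  push_cast at h1
  have h2 : (1 : ℝ) ≤ 2 ^ t := one_le_pow₀ (by norm_num)
  have h3 : y + 3 ≤ 3 * 2 ^ t := by linarith
  calc (y + 3) ^ 2 ≤ (3 * 2 ^ t) ^ 2 := by gcongr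
    _ = 9 * 4 ^ t := by
      rw [mul_pow, ← pow_mul, mul_comm t 2, pow_mul]
      norm_num

theorem summable_iff_ne_top {f : ℕ × ℕ → ℝ} (hf : ∀ p, 0 ≤ f p) :
    Summable f ↔ ∑' p, ENNReal.ofReal (f p) ≠ ⊤ := by
  constructor
  · intro h
    exact h.tsum_ofReal_ne_top
  · intro h
    have := ENNReal.summable_toReal h
    refine this.congr fun p => ?_
    exact ENNReal.toReal_ofReal (hf p)

theorem cmp {α ρ : ℝ} {w : ℕ × ℕ → ℝ} {e1 e2 : ℕ} {T : ℝ → ℕ × ℕ → ℝ}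
    (hT : ∀ x p, 0 ≤ T x p)
    (h1 : ∀ x, 0 < x → ∃ k : ℕ, ∃ K : ℝ, 0 ≤ K ∧ ∀ p, T x p ≤ K * tm α w e1 e2 k ρ p)
    (h2 : ∀ k : ℕ, ∃ x, 0 < x ∧ ∃ K : ℝ, 0 ≤ K ∧ ∀ p, tm α w e1 e2 k ρ p ≤ K * T x p) :
    (∀ x, 0 < x → Summable (T x)) ↔ ρ ∈ Cset α w e1 e2 := by
  constructor
  · intro h k
    obtain ⟨x, hx, K, hK, h3⟩ := h2 k
    exact tsum_ne_top_of_le hK h3 ((summable_iff_ne_top (hT x)).1 (h x hx))
  · intro h x hx
    obtain ⟨k, K, hK, h3⟩ := h1 x hx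
    exact (summable_iff_ne_top (hT x)).2 (tsum_ne_top_of_le hK h3 (h k))

/-- The coefficient `a_{m,n}`. -/
noncomputable def a (α ρ : ℝ) (m n : ℕ) : ℝ :=
  (-1) ^ (m + n) / (Real.Gamma (1 - ρ - n - m / α) * Real.Gamma (α * ρ + m + α * n)) *
    (∏ j ∈ Finset.Icc 1 m,
      Real.sin (Real.pi / α * (α * ρ + j - 1)) / Real.sin (Real.pi * j / α)) *
    ∏ j ∈ Finset.Icc 1 n,
      Real.sin (Real.pi * α * (ρ + j - 1)) / Real.sin (Real.pi * α * j)

/-- The coefficient `b_{m,n}`. -/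
noncomputable def b (α ρ : ℝ) (m n : ℕ) : ℝ :=
  Real.Gamma (1 - ρ - n - m / α) * Real.Gamma (α * ρ + m + α * n) /
    (Real.Gamma (1 + n + m / α) * Real.Gamma (-m - α * n)) * a α ρ m n

/-- The terms of the series attached to `(α, ρ)`, at the point `x`. -/
noncomputable def term (α ρ x : ℝ) (p : ℕ × ℕ) : ℝ :=
  if α < 1 then
    x ^ (-1 - α) * (b α ρ p.1 (p.2 + 1) * x ^ (-(p.1 : ℝ) - α * p.2))
  else
    x ^ (α * ρ - 1) * (a α ρ p.1 p.2 * x ^ ((p.1 : ℝ) + α * p.2))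

/-- Absolute convergence of the series for every `x > 0`. -/
def AbsConv (α ρ : ℝ) : Prop := ∀ x : ℝ, 0 < x → Summable fun p : ℕ × ℕ => |term α ρ x p|

/-- `∏_{j = 1}^m |sin (c j)|`. -/
noncomputable def S (c : ℝ) (m : ℕ) : ℝ := ∏ j ∈ Finset.Icc 1 m, |Real.sin (c * j)|

theorem prod1 {α : ℝ} (hα : α ≠ 0) (ρ : ℝ) (m : ℕ) :
    |∏ j ∈ Finset.Icc 1 m,
      Real.sin (Real.pi / α * (α * ρ + j - 1)) / Real.sin (Real.pi * j / α)| =
      pr (1 / α) (1 * ρ) m / S (Real.pi / α) m := by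
  induction m with
  | zero => simp [pr, S]
  | succ m ih =>
    rw [Finset.prod_Icc_succ_top (by omega), abs_mul, ih, pr_succ]
    unfold S
    rw [Finset.prod_Icc_succ_top (by omega), mul_div_mul_comm, abs_div]
    congr 3
    · congr 1
      push_cast
      field_simp
      ring
    · congr 1
      push_cast
      field_simp

theorem prod2 (α ρ : ℝ) (n : ℕ) :
    |∏ j ∈ Finset.Icc 1 n,
      Real.sin (Real.pi * α * (ρ + j - 1)) / Real.sin (Real.pi * α * j)| =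
      pr α (α * ρ) n / S (Real.pi * α) n := by
  induction n with
  | zero => simp [pr, S]
  | succ m ih =>
    rw [Finset.prod_Icc_succ_top (by omega), abs_mul, ih, pr_succ]
    unfold S
    rw [Finset.prod_Icc_succ_top (by omega), mul_div_mul_comm, abs_div]
    congr 3
    congr 1
    push_cast
    ring

theorem S_pos {c : ℝ} (hc : Irrational c) (m : ℕ) : 0 < S (Real.pi * c) m := by
  unfold S
  refine Finset.prod_pos fun j hj => abs_pos.2 fun h => ?_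
  rw [Finset.mem_Icc] at hj
  obtain ⟨n, hn⟩ := Real.sin_eq_zero_iff.1 h
  have h1 : (n : ℝ) = c * j := by
    have : Real.pi * (c * j - n) = 0 := by linarith
    rcases mul_eq_zero.1 this with h | h
    · exact absurd h Real.pi_ne_zero
    · linarith
  have h2 : Irrational (c * (j : ℕ)) := hc.mul_natCast (by omega)
  exact h2.ne_int n h1.symm

theorem abs_a {α ρ : ℝ} (hα : 0 < α) (hρ : 0 < ρ) (m n : ℕ) :
    |a α ρ m n| = 1 / (|Real.Gamma (1 - ρ - n - m / α)| * Real.Gamma (α * ρ + m + α * n)) *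
      (pr (1 / α) (1 * ρ) m / S (Real.pi / α) m) * (pr α (α * ρ) n / S (Real.pi * α) n) := by
  unfold a
  rw [abs_mul, abs_mul, prod1 hα.ne', prod2, abs_div, abs_mul, abs_pow, abs_neg, abs_one,
    one_pow]
  have h1 : 0 < Real.Gamma (α * ρ + m + α * n) := Real.Gamma_pos_of_pos (by positivity)
  rw [abs_of_pos h1]

/-- The weight for `α < 1`. -/
noncomputable def w1 (α : ℝ) (p : ℕ × ℕ) : ℝ :=
  1 / (|Real.Gamma (1 + (p.2 + 1 : ℕ) + p.1 / α) * Real.Gamma (-p.1 - α * (p.2 + 1 : ℕ))| *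
    (S (Real.pi / α) p.1 * S (Real.pi * α) (p.2 + 1)))

theorem w1_nonneg {α : ℝ} (hirr : Irrational α) (p : ℕ × ℕ) : 0 ≤ w1 α p := by
  unfold w1
  have h1 := S_pos hirr (p.2 + 1)
  have h2 := S_pos hirr.inv p.1
  rw [← div_eq_mul_inv] at h2
  positivity

theorem abs_b {α ρ : ℝ} (hα : 0 < α) (hρ : 0 < ρ) (p : ℕ × ℕ)
    (hG : Real.Gamma (1 - ρ - (p.2 + 1 : ℕ) - p.1 / α) ≠ 0) :
    |b α ρ p.1 (p.2 + 1)| = w1 α p * pr (1 / α) (1 * ρ) (p.1 + 0) * pr α (α * ρ) (p.2 + 1) := by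
  unfold b
  rw [abs_mul, abs_div, abs_mul, abs_a hα hρ]
  have h1 : 0 < Real.Gamma (α * ρ + p.1 + α * (p.2 + 1 : ℕ)) :=
    Real.Gamma_pos_of_pos (by positivity)
  rw [abs_of_pos h1]
  have h2 := abs_pos.2 hG
  unfold w1
  rw [add_zero]
  generalize |Real.Gamma (1 - ρ - (p.2 + 1 : ℕ) - p.1 / α)| = A at *
  generalize Real.Gamma (α * ρ + p.1 + α * (p.2 + 1 : ℕ)) = B at *
  generalize |Real.Gamma (1 + (p.2 + 1 : ℕ) + p.1 / α) * Real.Gamma (-p.1 - α * (p.2 + 1 : ℕ))| = C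
  generalize S (Real.pi / α) p.1 = s1
  generalize S (Real.pi * α) (p.2 + 1) = s2
  generalize pr (1 / α) (1 * ρ) p.1 = q1
  generalize pr α (α * ρ) (p.2 + 1) = q2
  have hA : A ≠ 0 := h2.ne'
  have hB : B ≠ 0 := h1.ne'
  calc A * B / C * (1 / (A * B) * (q1 / s1) * (q2 / s2))
      = (A * B / (A * B)) * (1 / (C * (s1 * s2)) * q1 * q2) := by
        simp only [div_eq_mul_inv, mul_inv]
        ring
    _ = _ := by rw [div_self (mul_ne_zero hA hB), one_mul]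

theorem conv_iff_1 {α ρ : ℝ} (h0 : 0 < α) (h1 : α < 1) (hirr : Irrational α) (hρ : 0 < ρ)
    (hG : ∀ p : ℕ × ℕ, Real.Gamma (1 - ρ - (p.2 + 1 : ℕ) - p.1 / α) ≠ 0) :
    AbsConv α ρ ↔ ρ ∈ Cset α (w1 α) 0 1 := by
  have ht : ∀ x p, 0 < x → |term α ρ x p| = x ^ (-1 - α) *
      (w1 α p * pr (1 / α) (1 * ρ) (p.1 + 0) * pr α (α * ρ) (p.2 + 1) *
        x ^ (-(p.1 : ℝ) - α * p.2)) := by
    intro x p hx
    unfold term
    rw [if_pos h1, abs_mul, abs_mul, abs_b h0 hρ p (hG p), abs_of_pos (Real.rpow_pos_of_pos hx _),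
      abs_of_pos (Real.rpow_pos_of_pos hx _)]
  have hnn : ∀ p : ℕ × ℕ, 0 ≤ w1 α p * pr (1 / α) (1 * ρ) (p.1 + 0) * pr α (α * ρ) (p.2 + 1) :=
    fun p => mul_nonneg (mul_nonneg (w1_nonneg hirr p) (pr_nonneg _ _ _)) (pr_nonneg _ _ _)
  refine cmp (T := fun x p => |term α ρ x p|) (fun _ _ => abs_nonneg _) ?_ ?_
  · intro x hx
    obtain ⟨k, hk⟩ := exists_nat_ge (max (x ^ (-1 : ℝ)) (x ^ (-α)))
    refine ⟨k, x ^ (-1 - α), (Real.rpow_pos_of_pos hx _).le, fun p => ?_⟩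
    rw [ht x p hx]
    refine mul_le_mul_of_nonneg_left ?_ (Real.rpow_pos_of_pos hx _).le
    unfold tm
    have e1 : x ^ (-(p.1 : ℝ) - α * p.2) = (x ^ (-1 : ℝ)) ^ p.1 * (x ^ (-α)) ^ p.2 := by
      rw [← Real.rpow_natCast, ← Real.rpow_natCast, ← Real.rpow_mul hx.le, ← Real.rpow_mul hx.le,
        ← Real.rpow_add hx]
      congr 1
      ring
    have e2 : x ^ (-(p.1 : ℝ) - α * p.2) ≤ ((k : ℝ) + 1) ^ (p.1 + p.2) := by
      rw [e1, pow_add]
      have i1 := (le_max_left _ _).trans hk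
      have i2 := (le_max_right _ _).trans hk
      have j1 := (Real.rpow_pos_of_pos hx (-1)).le
      have j2 := (Real.rpow_pos_of_pos hx (-α)).le
      refine mul_le_mul (pow_le_pow_left₀ j1 (by linarith) _)
        (pow_le_pow_left₀ j2 (by linarith) _) (by positivity) (by positivity)
    calc _ ≤ (w1 α p * pr (1 / α) (1 * ρ) (p.1 + 0) * pr α (α * ρ) (p.2 + 1)) *
          ((k : ℝ) + 1) ^ (p.1 + p.2) := mul_le_mul_of_nonneg_left e2 (hnn p)
      _ = _ := by ring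
  · intro k
    have hk1 : (1 : ℝ) ≤ (k : ℝ) + 1 := by
      have : (0 : ℝ) ≤ k := by positivity
      linarith
    have hk0 : (0 : ℝ) < (k : ℝ) + 1 := by linarith
    set x : ℝ := ((k : ℝ) + 1) ^ (-1 / α) with hx
    have hx0 : 0 < x := Real.rpow_pos_of_pos hk0 _
    refine ⟨x, hx0, 1 / x ^ (-1 - α), ?_, fun p => ?_⟩
    · have := Real.rpow_pos_of_pos hx0 (-1 - α)
      positivity
    · rw [ht x p hx0, ← mul_assoc, one_div_mul_cancel (Real.rpow_pos_of_pos hx0 _).ne', one_mul]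
      have e2 : ((k : ℝ) + 1) ^ (p.1 + p.2) ≤ x ^ (-(p.1 : ℝ) - α * p.2) := by
        rw [hx, ← Real.rpow_mul hk0.le, ← Real.rpow_natCast]
        refine Real.rpow_le_rpow_of_exponent_le hk1 ?_
        push_cast
        have e3 : -1 / α * (-(p.1 : ℝ) - α * p.2) = p.1 / α + p.2 := by
          field_simp
          ring
        rw [e3]
        have : (p.1 : ℝ) ≤ p.1 / α := by
          rw [le_div_iff₀ h0]
          have : (0 : ℝ) ≤ p.1 := by positivity
          nlinarith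
        linarith
      unfold tm
      calc _ = (w1 α p * pr (1 / α) (1 * ρ) (p.1 + 0) * pr α (α * ρ) (p.2 + 1)) *
          ((k : ℝ) + 1) ^ (p.1 + p.2) := by ring
        _ ≤ _ := mul_le_mul_of_nonneg_left e2 (hnn p)

/-- The weight for `α > 1`. -/
noncomputable def w2 (α : ℝ) (p : ℕ × ℕ) : ℝ :=
  Real.Gamma (2 + (p.2 + p.1 / α)) / (Real.Gamma (2 + (p.1 + α * p.2)) *
    (S (Real.pi / α) p.1 * S (Real.pi * α) p.2))

theorem w2_pos {α : ℝ} (h0 : 0 < α) (hirr : Irrational α) (p : ℕ × ℕ) : 0 < w2 α p := by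
  unfold w2
  have h1 := S_pos hirr p.2
  have h2 := S_pos hirr.inv p.1
  rw [← div_eq_mul_inv] at h2
  have h3 : 0 < Real.Gamma (2 + ((p.2 : ℝ) + p.1 / α)) := Real.Gamma_pos_of_pos (by positivity)
  have h4 : 0 < Real.Gamma (2 + ((p.1 : ℝ) + α * p.2)) := Real.Gamma_pos_of_pos (by positivity)
  positivity

theorem inv_gamma {α ρ : ℝ} (h0 : 0 < α) (hρ : 0 < ρ) (m n : ℕ) :
    1 / |Real.Gamma (1 - ρ - n - m / α)| =
      Real.Gamma (ρ + (n + m / α)) * |Real.sin (Real.pi * (1 * ρ + 1 / α * m))| / Real.pi := by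
  set s : ℝ := ρ + (n + m / α) with hs
  have hs0 : 0 < s := by positivity
  have e1 : 1 - ρ - n - m / α = 1 - s := by rw [hs]; ring
  have e2 : |Real.sin (Real.pi * (1 * ρ + 1 / α * m))| = |Real.sin (Real.pi * s)| := by
    have : Real.pi * s = Real.pi * (1 * ρ + 1 / α * m) + n * Real.pi := by rw [hs]; ring
    rw [this, Real.sin_add_nat_mul_pi, abs_mul, abs_pow, abs_neg, abs_one, one_pow,
      one_mul (|_|)]
  rw [e1, e2]
  have h1 := Real.Gamma_mul_Gamma_one_sub s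
  have h2 : 0 < Real.Gamma s := Real.Gamma_pos_of_pos hs0
  have h3 : Real.Gamma (1 - s) = Real.pi / (Real.Gamma s * Real.sin (Real.pi * s)) := by
    rw [← div_div, div_right_comm, ← h1, mul_div_cancel_left₀ _ h2.ne']
  rw [h3, abs_div, abs_mul, abs_of_pos h2, abs_of_pos Real.pi_pos, one_div_div]

theorem abs_a2 {α ρ : ℝ} (h0 : 0 < α) (hρ : 0 < ρ) (p : ℕ × ℕ) :
    |a α ρ p.1 p.2| = (w2 α p * pr (1 / α) (1 * ρ) (p.1 + 1) * pr α (α * ρ) (p.2 + 0)) *
      (Real.Gamma (ρ + (p.2 + p.1 / α)) / Real.Gamma (2 + (p.2 + p.1 / α)) *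
        (Real.Gamma (2 + (p.1 + α * p.2)) / Real.Gamma (α * ρ + (p.1 + α * p.2))) / Real.pi) := by
  have h3 : 0 < Real.Gamma (2 + ((p.2 : ℝ) + p.1 / α)) := Real.Gamma_pos_of_pos (by positivity)
  have h4 : 0 < Real.Gamma (2 + ((p.1 : ℝ) + α * p.2)) := Real.Gamma_pos_of_pos (by positivity)
  rw [abs_a h0 hρ, one_div, mul_inv, ← one_div, inv_gamma h0 hρ, pr_succ, add_zero,
    add_assoc (α * ρ)]
  unfold w2
  generalize Real.Gamma (2 + ((p.2 : ℝ) + p.1 / α)) = g1 at *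
  generalize Real.Gamma (2 + ((p.1 : ℝ) + α * p.2)) = g2 at *
  have i1 : g1 * g1⁻¹ = 1 := mul_inv_cancel₀ h3.ne'
  have i2 : g2 * g2⁻¹ = 1 := mul_inv_cancel₀ h4.ne'
  generalize pr (1 / α) (1 * ρ) p.1 = q1
  generalize |Real.sin (Real.pi * (1 * ρ + 1 / α * p.1))| = q2
  generalize pr α (α * ρ) p.2 = q3
  generalize Real.Gamma (α * ρ + ((p.1 : ℝ) + α * p.2)) = q4
  generalize Real.Gamma (ρ + ((p.2 : ℝ) + p.1 / α)) = q5
  generalize S (Real.pi / α) p.1 = s1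
  generalize S (Real.pi * α) p.2 = s2
  symm
  calc _ = (g1 * g1⁻¹) * (g2 * g2⁻¹) * (q5 * q2 / Real.pi * q4⁻¹ * (q1 / s1) * (q3 / s2)) := by
        simp only [div_eq_mul_inv, mul_inv]
        ring
    _ = _ := by rw [i1, i2, one_mul, one_mul]

theorem conv_iff_2 {α ρ : ℝ} (h1 : 1 < α) (h2 : α < 2) (hirr : Irrational α) (hρ : 0 < ρ)
    (hρ1 : ρ < 1) : AbsConv α ρ ↔ ρ ∈ Cset α (w2 α) 1 0 := by
  have h0 : 0 < α := by linarith
  have hσ : 0 < α * ρ := by positivity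
  have hσ2 : α * ρ < 2 := by nlinarith
  have ht : ∀ x p, 0 < x → |term α ρ x p| = x ^ (α * ρ - 1) *
      (|a α ρ p.1 p.2| * x ^ ((p.1 : ℝ) + α * p.2)) := by
    intro x p hx
    unfold term
    rw [if_neg (by linarith), abs_mul, abs_mul, abs_of_pos (Real.rpow_pos_of_pos hx _),
      abs_of_pos (Real.rpow_pos_of_pos hx _)]
  have hnn : ∀ p : ℕ × ℕ, 0 ≤ w2 α p * pr (1 / α) (1 * ρ) (p.1 + 1) * pr α (α * ρ) (p.2 + 0) :=
    fun p => mul_nonneg (mul_nonneg (w2_pos h0 hirr p).le (pr_nonneg _ _ _)) (pr_nonneg _ _ _)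
  -- the factor
  have hfac : ∀ p : ℕ × ℕ,
      Real.Gamma (ρ + (p.2 + p.1 / α)) / Real.Gamma (2 + (p.2 + p.1 / α)) *
        (Real.Gamma (2 + (p.1 + α * p.2)) / Real.Gamma (α * ρ + (p.1 + α * p.2))) / Real.pi ≤
        81 / ρ * 16 ^ (p.1 + p.2) ∧
      1 ≤ 81 * Real.pi / (α * ρ) * 16 ^ (p.1 + p.2) *
        (Real.Gamma (ρ + (p.2 + p.1 / α)) / Real.Gamma (2 + (p.2 + p.1 / α)) *
        (Real.Gamma (2 + (p.1 + α * p.2)) / Real.Gamma (α * ρ + (p.1 + α * p.2))) /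
          Real.pi) := by
    intro p
    set y : ℝ := (p.2 : ℝ) + p.1 / α with hy
    set N : ℝ := (p.1 : ℝ) + α * p.2 with hN
    have hy0 : 0 ≤ y := by positivity
    have hN0 : 0 ≤ N := by positivity
    have hy1 : y ≤ 2 * (p.1 + p.2 : ℕ) := by
      have h5 : (p.1 : ℝ) / α ≤ p.1 := by
        rw [div_le_iff₀ h0]
        have : (0 : ℝ) ≤ p.1 := by positivity
        nlinarith
      have h6 : (0 : ℝ) ≤ p.1 := by positivity
      have h7 : (0 : ℝ) ≤ p.2 := by positivity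
      rw [hy]
      push_cast
      linarith
    have hN1 : N ≤ 2 * (p.1 + p.2 : ℕ) := by
      have h6 : (0 : ℝ) ≤ p.1 := by positivity
      have h7 : (0 : ℝ) ≤ p.2 := by positivity
      rw [hN]
      push_cast
      nlinarith
    obtain ⟨u1, u2⟩ := gamma_bounds hρ (by linarith) hy0
    obtain ⟨v1, v2⟩ := gamma_bounds hσ hσ2 hN0
    have hc1 := sq_bound hy0 hy1
    have hc2 := sq_bound hN0 hN1
    have g1 : 0 < Real.Gamma (ρ + y) := Real.Gamma_pos_of_pos (by positivity)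
    have g2 : 0 < Real.Gamma (2 + y) := Real.Gamma_pos_of_pos (by positivity)
    have g3 : 0 < Real.Gamma (2 + N) := Real.Gamma_pos_of_pos (by positivity)
    have g4 : 0 < Real.Gamma (α * ρ + N) := Real.Gamma_pos_of_pos (by positivity)
    have e16 : (16 : ℝ) ^ (p.1 + p.2) = 4 ^ (p.1 + p.2) * 4 ^ (p.1 + p.2) := by
      rw [← mul_pow]; norm_num
    have k1 : Real.Gamma (ρ + y) / Real.Gamma (2 + y) ≤ 9 * 4 ^ (p.1 + p.2) / ρ := by
      rw [div_le_iff₀ g2]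
      refine u2.trans ?_
      gcongr
    have k2 : Real.Gamma (2 + N) / Real.Gamma (α * ρ + N) ≤ 9 * 4 ^ (p.1 + p.2) := by
      rw [div_le_iff₀ g4]
      refine v1.trans ?_
      gcongr
    have k3 : 1 ≤ 9 * 4 ^ (p.1 + p.2) * (Real.Gamma (ρ + y) / Real.Gamma (2 + y)) := by
      rw [← mul_div_assoc, le_div_iff₀ g2, one_mul]
      refine u1.trans ?_
      gcongr
    have k4 : 1 ≤ 9 * 4 ^ (p.1 + p.2) / (α * ρ) *
        (Real.Gamma (2 + N) / Real.Gamma (α * ρ + N)) := by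
      rw [← mul_div_assoc, le_div_iff₀ g4, one_mul]
      refine v2.trans ?_
      gcongr
    have hpi : 1 ≤ Real.pi := by linarith [Real.pi_gt_three]
    constructor
    · have k5 : Real.Gamma (ρ + y) / Real.Gamma (2 + y) *
          (Real.Gamma (2 + N) / Real.Gamma (α * ρ + N)) ≤
          9 * 4 ^ (p.1 + p.2) / ρ * (9 * 4 ^ (p.1 + p.2)) :=
        mul_le_mul k1 k2 (by positivity) (by positivity)
      refine (div_le_self (by positivity) hpi).trans (k5.trans (le_of_eq ?_))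
      rw [e16]
      ring
    · have k6 : 1 * 1 ≤ (9 * 4 ^ (p.1 + p.2) * (Real.Gamma (ρ + y) / Real.Gamma (2 + y))) *
          (9 * 4 ^ (p.1 + p.2) / (α * ρ) * (Real.Gamma (2 + N) / Real.Gamma (α * ρ + N))) :=
        mul_le_mul k3 k4 (by norm_num) (by positivity)
      rw [one_mul] at k6
      refine k6.trans (le_of_eq ?_)
      rw [e16]
      have : Real.pi ≠ 0 := Real.pi_ne_zero
      field_simp
      norm_num
  refine cmp (T := fun x p => |term α ρ x p|) (fun _ _ => abs_nonneg _) ?_ ?_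
  · intro x hx
    obtain ⟨k, hk⟩ := exists_nat_ge (max (16 * x) (16 * x ^ α))
    refine ⟨k, x ^ (α * ρ - 1) * (81 / ρ), by
      have := Real.rpow_pos_of_pos hx (α * ρ - 1)
      positivity, fun p => ?_⟩
    rw [ht x p hx, mul_assoc]
    refine mul_le_mul_of_nonneg_left ?_ (Real.rpow_pos_of_pos hx _).le
    rw [abs_a2 h0 hρ]
    have e1 : x ^ ((p.1 : ℝ) + α * p.2) = x ^ p.1 * (x ^ α) ^ p.2 := by
      rw [← Real.rpow_natCast, ← Real.rpow_natCast, ← Real.rpow_mul hx.le, ← Real.rpow_add hx]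
    have e2 : 16 ^ (p.1 + p.2) * x ^ ((p.1 : ℝ) + α * p.2) ≤ ((k : ℝ) + 1) ^ (p.1 + p.2) := by
      rw [e1, pow_add, pow_add, mul_mul_mul_comm, ← mul_pow, ← mul_pow]
      have i1 := (le_max_left _ _).trans hk
      have i2 := (le_max_right _ _).trans hk
      have j2 := (Real.rpow_pos_of_pos hx α).le
      refine mul_le_mul (pow_le_pow_left₀ (by positivity) (by linarith) _)
        (pow_le_pow_left₀ (by positivity) (by linarith) _) (by positivity) (by positivity)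
    have hf := (hfac p).1
    unfold tm
    have hx2 : 0 ≤ x ^ ((p.1 : ℝ) + α * p.2) := (Real.rpow_pos_of_pos hx _).le
    calc _ ≤ (w2 α p * pr (1 / α) (1 * ρ) (p.1 + 1) * pr α (α * ρ) (p.2 + 0)) *
          (81 / ρ * 16 ^ (p.1 + p.2)) * x ^ ((p.1 : ℝ) + α * p.2) :=
          mul_le_mul_of_nonneg_right (mul_le_mul_of_nonneg_left hf (hnn p)) hx2
      _ = (w2 α p * pr (1 / α) (1 * ρ) (p.1 + 1) * pr α (α * ρ) (p.2 + 0)) * (81 / ρ) *
          (16 ^ (p.1 + p.2) * x ^ ((p.1 : ℝ) + α * p.2)) := by ring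
      _ ≤ (w2 α p * pr (1 / α) (1 * ρ) (p.1 + 1) * pr α (α * ρ) (p.2 + 0)) * (81 / ρ) *
          (((k : ℝ) + 1) ^ (p.1 + p.2)) :=
          mul_le_mul_of_nonneg_left e2 (mul_nonneg (hnn p) (by positivity))
      _ = _ := by ring
  · intro k
    have hk1 : (1 : ℝ) ≤ (k : ℝ) + 1 := by
      have : (0 : ℝ) ≤ k := by positivity
      linarith
    set x : ℝ := 16 * ((k : ℝ) + 1) with hx
    have hx0 : 0 < x := by positivity
    have hx1 : 1 ≤ x := by linarith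
    have hxr := Real.rpow_pos_of_pos hx0 (α * ρ - 1)
    refine ⟨x, hx0, 1 / x ^ (α * ρ - 1) * (81 * Real.pi / (α * ρ)), by positivity, fun p => ?_⟩
    rw [ht x p hx0]
    have e0 : 1 / x ^ (α * ρ - 1) * (81 * Real.pi / (α * ρ)) *
        (x ^ (α * ρ - 1) * (|a α ρ p.1 p.2| * x ^ ((p.1 : ℝ) + α * p.2))) =
        (81 * Real.pi / (α * ρ)) * (|a α ρ p.1 p.2| * x ^ ((p.1 : ℝ) + α * p.2)) := by
      calc _ = (x ^ (α * ρ - 1) / x ^ (α * ρ - 1)) *
          ((81 * Real.pi / (α * ρ)) * (|a α ρ p.1 p.2| * x ^ ((p.1 : ℝ) + α * p.2))) := by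
            simp only [div_eq_mul_inv]; ring
        _ = _ := by rw [div_self hxr.ne', one_mul]
    rw [e0, abs_a2 h0 hρ]
    have e2 : (16 : ℝ) ^ (p.1 + p.2) * ((k : ℝ) + 1) ^ (p.1 + p.2) ≤
        x ^ ((p.1 : ℝ) + α * p.2) := by
      rw [← mul_pow, ← hx, ← Real.rpow_natCast]
      refine Real.rpow_le_rpow_of_exponent_le hx1 ?_
      push_cast
      have : (0 : ℝ) ≤ p.2 := by positivity
      nlinarith
    have hf := (hfac p).2
    unfold tm
    set F : ℝ := Real.Gamma (ρ + (p.2 + p.1 / α)) / Real.Gamma (2 + (p.2 + p.1 / α)) *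
        (Real.Gamma (2 + (p.1 + α * p.2)) / Real.Gamma (α * ρ + (p.1 + α * p.2))) /
          Real.pi with hF
    have hF0 : 0 ≤ F := by
      rw [hF]
      have g1 : 0 < Real.Gamma (ρ + ((p.2 : ℝ) + p.1 / α)) :=
        Real.Gamma_pos_of_pos (by positivity)
      have g2 : 0 < Real.Gamma (2 + ((p.2 : ℝ) + p.1 / α)) :=
        Real.Gamma_pos_of_pos (by positivity)
      have g3 : 0 < Real.Gamma (2 + ((p.1 : ℝ) + α * p.2)) :=
        Real.Gamma_pos_of_pos (by positivity)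
      have g4 : 0 < Real.Gamma (α * ρ + ((p.1 : ℝ) + α * p.2)) :=
        Real.Gamma_pos_of_pos (by positivity)
      positivity
    calc _ = (w2 α p * pr (1 / α) (1 * ρ) (p.1 + 1) * pr α (α * ρ) (p.2 + 0)) *
          (((k : ℝ) + 1) ^ (p.1 + p.2)) * 1 := by ring
      _ ≤ (w2 α p * pr (1 / α) (1 * ρ) (p.1 + 1) * pr α (α * ρ) (p.2 + 0)) *
          (((k : ℝ) + 1) ^ (p.1 + p.2)) * (81 * Real.pi / (α * ρ) * 16 ^ (p.1 + p.2) * F) :=
          mul_le_mul_of_nonneg_left hf (mul_nonneg (hnn p) (by positivity))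
      _ = (w2 α p * pr (1 / α) (1 * ρ) (p.1 + 1) * pr α (α * ρ) (p.2 + 0)) *
          (81 * Real.pi / (α * ρ) * F) * (16 ^ (p.1 + p.2) * ((k : ℝ) + 1) ^ (p.1 + p.2)) := by
          ring
      _ ≤ (w2 α p * pr (1 / α) (1 * ρ) (p.1 + 1) * pr α (α * ρ) (p.2 + 0)) *
          (81 * Real.pi / (α * ρ) * F) * x ^ ((p.1 : ℝ) + α * p.2) :=
          mul_le_mul_of_nonneg_left e2 (mul_nonneg (hnn p) (by positivity))
      _ = _ := by ring

end Pool.Agent.Q211.ZS
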