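import Mathlib

/-!
# A zero-one law from almost invariance under an irrational translation and the unit translation
-/

set_option autoImplicit false

open MeasureTheory Filter Topology Set

namespace Pool.Agent.Q211.ZS

theorem ae_translate {p : ℝ → Prop} (h : ∀ᵐ x : ℝ, p x) (c : ℝ) : ∀ᵐ x : ℝ, p (x + c) :=
  (measurePreserving_add_right (volume : Measure ℝ) c).quasiMeasurePreserving.ae h

theorem rot_zero_one (β : ℝ) (hβ0 : 0 < β) (hβ : Irrational β) (C : Set ℝ) (hC : MeasurableSet C)
    (h1 : ∀ᵐ x : ℝ, x ∈ C → x + β ∈ C) (h2 : ∀ᵐ x : ℝ, x ∈ C → x - 1 ∈ C) :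
    volume (C ∩ Ioc 0 1) = 0 ∨ volume (Cᶜ ∩ Ioc 0 1) = 0 := by
  set f : UnitAddCircle → ℝ := fun x => ((AddCircle.equivIoc 1 0 x : Ioc (0 : ℝ) (0 + 1)) : ℝ)
    with hf
  have hfm : Measurable f :=
    measurable_subtype_coe.comp (AddCircle.measurableEquivIoc 1 0).measurable
  have hfx : ∀ y : ℝ, 0 < y → y ≤ 1 → f (y : UnitAddCircle) = y := by
    intro y hy hy1
    exact AddCircle.equivIoc_coe_of_mem (p := (1 : ℝ)) (a := 0) ⟨hy, by linarith⟩
  have hfk : ∀ y : ℝ, 0 < y → ∃ k : ℕ, f (y : UnitAddCircle) = y - k := by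
    intro y hy
    obtain ⟨k, hk⟩ : ∃ k : ℕ, ⌈y⌉₊ = k + 1 := ⟨⌈y⌉₊ - 1, by
      have := Nat.ceil_pos.2 hy
      omega⟩
    refine ⟨k, ?_⟩
    have e1 : y ≤ k + 1 := by
      have := Nat.le_ceil y
      rw [hk] at this
      exact_mod_cast this
    have e2 : (k : ℝ) < y := by
      have := Nat.ceil_lt_add_one hy.le
      rw [hk] at this
      push_cast at this
      linarith
    have e3 : ((y - k : ℝ) : UnitAddCircle) = (y : UnitAddCircle) := by
      have h3 : ((k : ℝ) : UnitAddCircle) = 0 := by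
        have : (k : ℝ) = (k : ℤ) • (1 : ℝ) := by simp
        rw [this]
        rw [AddCircle.coe_zsmul, AddCircle.coe_period, smul_zero]
      rw [AddCircle.coe_sub, h3, sub_zero]
    rw [← e3]
    exact hfx _ (by linarith) (by linarith)
  set s : Set UnitAddCircle := f ⁻¹' C with hs
  have hsm : MeasurableSet s := hfm hC
  have hmap : ((volume : Measure ℝ).restrict (Ioc 0 1)).map ((↑) : ℝ → UnitAddCircle) =
      (volume : Measure UnitAddCircle) := by
    have := (UnitAddCircle.measurePreserving_mk 0).map_eq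
    rwa [zero_add] at this
  have hmk : Measurable ((↑) : ℝ → UnitAddCircle) := AddCircle.measurable_mk'
  -- iterate the integer translations
  have h3 : ∀ᵐ x : ℝ, ∀ k : ℕ, x + β ∈ C → x + β - k ∈ C := by
    have h4 : ∀ᵐ x : ℝ, ∀ k : ℕ, x + (β - k) ∈ C → x + (β - k) - 1 ∈ C := by
      rw [ae_all_iff]
      exact fun k => ae_translate h2 (β - k)
    filter_upwards [h4] with x hx k hk
    induction k with
    | zero => simpa using hk
    | succ k ih =>
      have := hx k (by rw [← add_sub_assoc]; exact ih)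
      rw [← add_sub_assoc, sub_sub] at this
      push_cast
      exact this
  have h5 : ∀ᵐ x : ℝ ∂((volume : Measure ℝ).restrict (Ioc 0 1)),
      (x : UnitAddCircle) ∈ s → ((β : UnitAddCircle) + (x : UnitAddCircle)) ∈ s := by
    rw [ae_restrict_iff' measurableSet_Ioc]
    filter_upwards [h1, h3] with x hx1 hx3 hx hxs
    have e1 : f (x : UnitAddCircle) = x := hfx x hx.1 hx.2
    have e2 : x ∈ C := by
      have : f (x : UnitAddCircle) ∈ C := hxs
      rwa [e1] at this
    have e3 := hx1 e2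
    obtain ⟨k, hk⟩ := hfk (x + β) (by linarith [hx.1])
    show f ((β : UnitAddCircle) + (x : UnitAddCircle)) ∈ C
    rw [← AddCircle.coe_add, add_comm β x, hk]
    exact hx3 k e3
  have h6 : ∀ᵐ x : UnitAddCircle, x ∈ s → (β : UnitAddCircle) + x ∈ s := by
    have hms : MeasurableSet {x : UnitAddCircle | x ∈ s → (β : UnitAddCircle) + x ∈ s} := by
      have : {x : UnitAddCircle | x ∈ s → (β : UnitAddCircle) + x ∈ s} =
          sᶜ ∪ (fun x => (β : UnitAddCircle) + x) ⁻¹' s := by
        ext x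
        simp [imp_iff_not_or]
      rw [this]
      exact hsm.compl.union ((measurable_const_add _) hsm)
    rw [← hmap]
    exact (ae_map_iff hmk.aemeasurable hms).2 h5
  have herg : Ergodic (fun x : UnitAddCircle => (β : UnitAddCircle) + x) := by
    rw [ergodic_add_left_iff_denseRange_zsmul]
    have := (AddCircle.denseRange_zsmul_coe_iff (a := β) (p := (1 : ℝ))).2 (by simpa using hβ)
    exact this
  have h7 := herg.ae_empty_or_univ_of_ae_le_preimage hsm.nullMeasurableSet h6
  have hpre : ∀ t : Set UnitAddCircle, MeasurableSet t →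
      volume t = volume (((↑) : ℝ → UnitAddCircle) ⁻¹' t ∩ Ioc 0 1) := by
    intro t ht
    rw [← hmap, Measure.map_apply hmk ht, Measure.restrict_apply (hmk ht)]
  rcases h7 with h8 | h8
  · left
    have h9 : volume s = 0 := by
      rw [measure_congr h8, measure_empty]
    rw [hpre s hsm] at h9
    have : ((↑) : ℝ → UnitAddCircle) ⁻¹' s ∩ Ioc 0 1 = C ∩ Ioc 0 1 := by
      ext x
      constructor
      · rintro ⟨h10, h11⟩
        have : f (x : UnitAddCircle) ∈ C := h10
        rw [hfx x h11.1 h11.2] at this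
        exact ⟨this, h11⟩
      · rintro ⟨h10, h11⟩
        refine ⟨?_, h11⟩
        show f (x : UnitAddCircle) ∈ C
        rwa [hfx x h11.1 h11.2]
    rwa [this] at h9
  · right
    have h9 : volume sᶜ = 0 := by
      have := h8.compl
      rw [measure_congr this]
      simp
    rw [hpre sᶜ hsm.compl] at h9
    have : ((↑) : ℝ → UnitAddCircle) ⁻¹' sᶜ ∩ Ioc 0 1 = Cᶜ ∩ Ioc 0 1 := by
      ext x
      constructor
      · rintro ⟨h10, h11⟩
        have : f (x : UnitAddCircle) ∉ C := h10
        rw [hfx x h11.1 h11.2] at this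
        exact ⟨this, h11⟩
      · rintro ⟨h10, h11⟩
        refine ⟨?_, h11⟩
        show f (x : UnitAddCircle) ∉ C
        rwa [hfx x h11.1 h11.2]
    rwa [this] at h9

/-- Almost every point is badly approximable along the orbit of a rotation, with a polynomial
bound. -/
theorem ae_sin_ge (a : ℝ) : ∀ᵐ y : ℝ, ∀ᶠ n : ℕ in atTop,
    1 / ((n : ℝ) + 1) ^ 2 ≤ |Real.sin (Real.pi * (y + a * n))| := by
  -- on the circle
  have h1 : ∀ᵐ x : UnitAddCircle, ∀ᶠ n : ℕ in atTop,
      x ∉ Metric.closedBall (-((a * n : ℝ) : UnitAddCircle)) (1 / ((n : ℝ) + 1) ^ 2) := by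
    refine ae_eventually_notMem ?_
    have h2 : ∀ n : ℕ, volume (Metric.closedBall (-((a * n : ℝ) : UnitAddCircle))
        (1 / ((n : ℝ) + 1) ^ 2)) ≤ ENNReal.ofReal (2 * (1 / ((n : ℝ) + 1) ^ 2)) := by
      intro n
      rw [AddCircle.volume_closedBall]
      exact ENNReal.ofReal_le_ofReal (min_le_right _ _)
    refine ne_top_of_le_ne_top ?_ (ENNReal.tsum_le_tsum h2)
    have h3 : Summable fun n : ℕ => 2 * (1 / ((n : ℝ) + 1) ^ 2) := by
      refine Summable.mul_left _ ?_
      have := (summable_nat_add_iff 1).2 (Real.summable_one_div_nat_pow.2 one_lt_two)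
      simpa using this
    rw [← ENNReal.ofReal_tsum_of_nonneg (fun n => by positivity) h3]
    exact ENNReal.ofReal_ne_top
  have h2 : ∀ k : ℤ, ∀ᵐ y : ℝ ∂((volume : Measure ℝ).restrict (Ioc (k : ℝ) (k + 1))),
      ∀ᶠ n : ℕ in atTop, (y : UnitAddCircle) ∉
        Metric.closedBall (-((a * n : ℝ) : UnitAddCircle)) (1 / ((n : ℝ) + 1) ^ 2) := by
    intro k
    exact (UnitAddCircle.measurePreserving_mk (k : ℝ)).quasiMeasurePreserving.ae h1
  have h3 : ∀ᵐ y : ℝ, ∀ᶠ n : ℕ in atTop, (y : UnitAddCircle) ∉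
        Metric.closedBall (-((a * n : ℝ) : UnitAddCircle)) (1 / ((n : ℝ) + 1) ^ 2) := by
    have h4 : ∀ᵐ y : ℝ, ∀ k : ℤ, y ∈ Ioc (k : ℝ) (k + 1) → ∀ᶠ n : ℕ in atTop,
        (y : UnitAddCircle) ∉
          Metric.closedBall (-((a * n : ℝ) : UnitAddCircle)) (1 / ((n : ℝ) + 1) ^ 2) := by
      rw [ae_all_iff]
      intro k
      exact (ae_restrict_iff' measurableSet_Ioc).1 (h2 k)
    filter_upwards [h4] with y hy
    refine hy (⌈y⌉ - 1) ⟨?_, ?_⟩
    · push_cast
      have := Int.ceil_lt_add_one y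
      linarith
    · push_cast
      have := Int.le_ceil y
      linarith
  filter_upwards [h3] with y hy
  filter_upwards [hy] with n hn
  rw [Metric.mem_closedBall, dist_eq_norm, sub_neg_eq_add, ← AddCircle.coe_add, not_le,
    UnitAddCircle.norm_eq] at hn
  set z := y + a * n with hz
  have h5 : |Real.sin (Real.pi * z)| = |Real.sin (Real.pi * (z - round z))| := by
    have : Real.pi * (z - round z) = Real.pi * z - (round z : ℤ) * Real.pi := by ring
    rw [this, Real.sin_sub_int_mul_pi, abs_mul]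
    have h6 : |((-1 : ℝ)) ^ (round z)| = 1 := by
      rw [abs_zpow, abs_neg, abs_one, one_zpow]
    rw [h6, one_mul]
  rw [h5]
  have h7 : |Real.pi * (z - round z)| ≤ Real.pi / 2 := by
    rw [abs_mul, abs_of_pos Real.pi_pos]
    have := abs_sub_round z
    have hp := Real.pi_pos
    nlinarith
  have h8 := Real.mul_abs_le_abs_sin h7
  rw [abs_mul, abs_of_pos Real.pi_pos] at h8
  have h9 : 2 / Real.pi * (Real.pi * |z - round z|) = 2 * |z - round z| := by
    field_simp
  rw [h9] at h8
  have h10 : 0 ≤ |z - round z| := abs_nonneg _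
  linarith

end Pool.Agent.Q211.ZS
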