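import Pool.Agent.Q211.ZS.Rot

/-!
# The zero-one law for double series with products of sines
-/

set_option autoImplicit false

open MeasureTheory Filter Topology Set

namespace Pool.Agent.Q211.ZS

/-- `∏_{j < m} |sin π (x + c j)|`. -/
noncomputable def pr (c x : ℝ) (m : ℕ) : ℝ :=
  ∏ j ∈ Finset.range m, |Real.sin (Real.pi * (x + c * j))|

theorem pr_nonneg (c x : ℝ) (m : ℕ) : 0 ≤ pr c x m := Finset.prod_nonneg fun _ _ => abs_nonneg _

theorem pr_succ (c x : ℝ) (m : ℕ) :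
    pr c x (m + 1) = pr c x m * |Real.sin (Real.pi * (x + c * m))| := Finset.prod_range_succ _ _

theorem pr_succ_le (c x : ℝ) (m : ℕ) : pr c x (m + 1) ≤ pr c x m := by
  rw [pr_succ]
  exact mul_le_of_le_one_right (pr_nonneg _ _ _) (Real.abs_sin_le_one _)

theorem abs_sin_add_pi (y : ℝ) : |Real.sin (y + Real.pi)| = |Real.sin y| := by
  rw [Real.sin_add_pi, abs_neg]

theorem pr_add_one (c x : ℝ) (m : ℕ) : pr c (x + 1) m = pr c x m := by
  unfold pr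
  refine Finset.prod_congr rfl fun j _ => ?_
  rw [show Real.pi * (x + 1 + c * j) = Real.pi * (x + c * j) + Real.pi by ring, abs_sin_add_pi]

theorem pr_shift (c x : ℝ) (m : ℕ) :
    pr c (x + c) m * |Real.sin (Real.pi * x)| = pr c x (m + 1) := by
  unfold pr
  rw [Finset.prod_range_succ']
  congr 1
  · refine Finset.prod_congr rfl fun j _ => ?_
    push_cast
    congr 2
    ring
  · simp

theorem measurable_pr (c a : ℝ) (m : ℕ) : Measurable fun x : ℝ => pr c (a * x) m := by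
  unfold pr
  refine Finset.measurable_prod _ fun j _ => ?_
  fun_prop

/-- The terms of the comparison series. -/
noncomputable def tm (α : ℝ) (w : ℕ × ℕ → ℝ) (e1 e2 k : ℕ) (ρ : ℝ) (p : ℕ × ℕ) : ℝ :=
  w p * ((k : ℝ) + 1) ^ (p.1 + p.2) * pr (1 / α) (1 * ρ) (p.1 + e1) * pr α (α * ρ) (p.2 + e2)

/-- The convergence set of the comparison series. -/
def Cset (α : ℝ) (w : ℕ × ℕ → ℝ) (e1 e2 : ℕ) : Set ℝ :=
  {ρ | ∀ k : ℕ, ∑' p, ENNReal.ofReal (tm α w e1 e2 k ρ p) ≠ ⊤}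

theorem measurable_Cset (α : ℝ) (w : ℕ × ℕ → ℝ) (e1 e2 : ℕ) : MeasurableSet (Cset α w e1 e2) := by
  have h1 : Cset α w e1 e2 = ⋂ k : ℕ,
      (fun ρ => ∑' p, ENNReal.ofReal (tm α w e1 e2 k ρ p)) ⁻¹' {⊤}ᶜ := by
    ext ρ
    simp [Cset]
  rw [h1]
  refine MeasurableSet.iInter fun k => ?_
  have h2 : Measurable fun ρ => ∑' p, ENNReal.ofReal (tm α w e1 e2 k ρ p) := by
    refine Measurable.tsum fun p => ?_
    refine ENNReal.measurable_ofReal.comp ?_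
    unfold tm
    exact (measurable_const.mul (measurable_pr _ _ _)).mul (measurable_pr _ _ _)
  exact h2 (MeasurableSet.singleton _).compl

theorem ae_sin_ne (c b : ℝ) (hb : b ≠ 0) : ∀ᵐ ρ : ℝ, Real.sin (Real.pi * (b * ρ + c)) ≠ 0 := by
  have h1 : {ρ : ℝ | ¬ Real.sin (Real.pi * (b * ρ + c)) ≠ 0} ⊆
      Set.range fun n : ℤ => ((n : ℝ) - c) / b := by
    intro ρ hρ
    simp only [ne_eq, not_not, mem_ofPred_eq] at hρ
    obtain ⟨n, hn⟩ := Real.sin_eq_zero_iff.1 hρ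
    refine ⟨n, ?_⟩
    have h2 : (n : ℝ) = b * ρ + c := by
      have : Real.pi * (b * ρ + c - n) = 0 := by linarith
      rcases mul_eq_zero.1 this with h | h
      · exact absurd h Real.pi_ne_zero
      · linarith
    simp only
    rw [h2]
    field_simp
    ring
  rw [ae_iff]
  exact measure_mono_null h1 ((Set.countable_range _).measure_zero volume)

theorem tsum_ne_top_of_le {f g : ℕ × ℕ → ℝ} {K : ℝ} (hK : 0 ≤ K) (h : ∀ p, f p ≤ K * g p)
    (hg : ∑' p, ENNReal.ofReal (g p) ≠ ⊤) : ∑' p, ENNReal.ofReal (f p) ≠ ⊤ := by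
  have h1 : ∀ p, ENNReal.ofReal (f p) ≤ ENNReal.ofReal K * ENNReal.ofReal (g p) := by
    intro p
    rw [← ENNReal.ofReal_mul hK]
    exact ENNReal.ofReal_le_ofReal (h p)
  refine ne_top_of_le_ne_top ?_ (ENNReal.tsum_le_tsum h1)
  rw [ENNReal.tsum_mul_left]
  exact ENNReal.mul_ne_top ENNReal.ofReal_ne_top hg

theorem inv_1 {α : ℝ} (hα : α ≠ 0) (w : ℕ × ℕ → ℝ) (hw : ∀ p, 0 ≤ w p) (e1 e2 : ℕ) :
    ∀ᵐ ρ : ℝ, ρ ∈ Cset α w e1 e2 → ρ + 1 / α ∈ Cset α w e1 e2 := by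
  filter_upwards [ae_sin_ne 0 1 one_ne_zero] with ρ hρ hC k
  rw [one_mul, add_zero] at hρ
  have hs : 0 < |Real.sin (Real.pi * ρ)| := abs_pos.2 hρ
  refine tsum_ne_top_of_le (K := 1 / |Real.sin (Real.pi * ρ)|) (by positivity) (fun p => ?_) (hC k)
  unfold tm
  have h1 : pr (1 / α) (1 * (ρ + 1 / α)) (p.1 + e1) ≤
      1 / |Real.sin (Real.pi * ρ)| * pr (1 / α) (1 * ρ) (p.1 + e1) := by
    rw [one_mul, one_mul, one_div_mul_eq_div, le_div_iff₀ hs, pr_shift]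
    exact pr_succ_le _ _ _
  have h2 : pr α (α * (ρ + 1 / α)) (p.2 + e2) = pr α (α * ρ) (p.2 + e2) := by
    rw [mul_add, mul_one_div_cancel hα, pr_add_one]
  rw [h2]
  have h3 : 0 ≤ w p * ((k : ℝ) + 1) ^ (p.1 + p.2) := mul_nonneg (hw p) (by positivity)
  have h4 := pr_nonneg α (α * ρ) (p.2 + e2)
  calc w p * ((k : ℝ) + 1) ^ (p.1 + p.2) * pr (1 / α) (1 * (ρ + 1 / α)) (p.1 + e1) *
        pr α (α * ρ) (p.2 + e2)
      ≤ w p * ((k : ℝ) + 1) ^ (p.1 + p.2) *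
        (1 / |Real.sin (Real.pi * ρ)| * pr (1 / α) (1 * ρ) (p.1 + e1)) *
        pr α (α * ρ) (p.2 + e2) := by gcongr
    _ = _ := by ring

theorem two_pow_sq (n : ℕ) : ((n : ℝ) + 1) ^ 2 ≤ 4 ^ (n + 1) := by
  have h : ((n + 1 : ℕ) : ℝ) ≤ 2 ^ (n + 1) := by
    have := (Nat.lt_two_pow_self (n := n + 1)).le
    exact_mod_cast this
  push_cast at h
  calc ((n : ℝ) + 1) ^ 2 ≤ (2 ^ (n + 1)) ^ 2 := by gcongr
    _ = 4 ^ (n + 1) := by rw [← pow_mul, mul_comm, pow_mul]; norm_num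

theorem inv_2 {α : ℝ} (hα : 0 < α) (w : ℕ × ℕ → ℝ) (hw : ∀ p, 0 ≤ w p) (e1 e2 : ℕ) :
    ∀ᵐ ρ : ℝ, ρ ∈ Cset α w e1 e2 → ρ - 1 ∈ Cset α w e1 e2 := by
  -- almost every point is good
  have hg1 : ∀ᵐ ρ : ℝ, ∀ᶠ n : ℕ in atTop,
      1 / ((n : ℝ) + 1) ^ 2 ≤ |Real.sin (Real.pi * (α * (ρ - 1) + α * n))| := by
    have h1 := ae_sin_ge α
    have h2 : ∀ᵐ x : ℝ, ∀ᶠ n : ℕ in atTop,
        1 / ((n : ℝ) + 1) ^ 2 ≤ |Real.sin (Real.pi * (α * x + α * n))| := by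
      have hq : Measure.QuasiMeasurePreserving (fun x : ℝ => α * x) volume volume := by
        refine ⟨measurable_const_mul α, ?_⟩
        rw [Real.map_volume_mul_left hα.ne']
        exact Measure.smul_absolutelyContinuous
      exact hq.ae h1
    have h3 := ae_translate h2 (-1)
    simpa only [← sub_eq_add_neg] using h3
  have hg2 : ∀ᵐ ρ : ℝ, ∀ n : ℕ, Real.sin (Real.pi * (α * (ρ - 1) + α * n)) ≠ 0 := by
    rw [ae_all_iff]
    intro n
    filter_upwards [ae_sin_ne (-α + α * n) α hα.ne'] with ρ hρ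
    rw [show α * (ρ - 1) + α * n = α * ρ + (-α + α * n) by ring]
    exact hρ
  filter_upwards [hg1, hg2] with ρ h1 h2 hC k
  obtain ⟨n0, hn0⟩ := eventually_atTop.1 h1
  set f : ℕ → ℝ := fun n => |Real.sin (Real.pi * (α * (ρ - 1) + α * n))| with hf
  have hfpos : ∀ n, 0 < f n := fun n => abs_pos.2 (h2 n)
  set K : ℝ := 1 + ∑ n ∈ Finset.range n0, 1 / f n with hK
  have hKs : 0 ≤ ∑ n ∈ Finset.range n0, 1 / f n :=
    Finset.sum_nonneg fun n _ => by have := hfpos n; positivity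
  have hK0 : 1 ≤ K := by linarith
  have hinv : ∀ n, 1 / f n ≤ K * ((n : ℝ) + 1) ^ 2 := by
    intro n
    have hn1 : (1 : ℝ) ≤ ((n : ℝ) + 1) ^ 2 := by
      have : (0 : ℝ) ≤ n := by positivity
      nlinarith
    by_cases hn : n0 ≤ n
    · have h3 := hn0 n hn
      have h4 : 1 / f n ≤ ((n : ℝ) + 1) ^ 2 := by
        rw [div_le_iff₀ (hfpos n)]
        rw [div_le_iff₀ (by positivity)] at h3
        linarith
      nlinarith
    · have h3 : 1 / f n ≤ ∑ n ∈ Finset.range n0, 1 / f n :=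
        Finset.single_le_sum (f := fun n => 1 / f n)
          (fun n _ => by have := hfpos n; positivity) (Finset.mem_range.2 (not_le.1 hn))
      nlinarith
  refine tsum_ne_top_of_le (K := K * 4 ^ (e2 + 1)) (by positivity) (fun p => ?_) (hC (4 * k + 3))
  unfold tm
  have e0 : pr (1 / α) (1 * (ρ - 1)) (p.1 + e1) = pr (1 / α) (1 * ρ) (p.1 + e1) := by
    rw [one_mul, one_mul]
    have := pr_add_one (1 / α) (ρ - 1) (p.1 + e1)
    rw [sub_add_cancel] at this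
    exact this.symm
  have e3 : pr α (α * (ρ - 1)) (p.2 + e2) ≤
      K * ((p.2 + e2 : ℕ) + 1 : ℝ) ^ 2 * pr α (α * ρ) (p.2 + e2) := by
    have h5 := pr_shift α (α * (ρ - 1)) (p.2 + e2)
    rw [pr_succ, show α * (ρ - 1) + α = α * ρ by ring] at h5
    have h6 : pr α (α * (ρ - 1)) (p.2 + e2) * f (p.2 + e2) ≤ pr α (α * ρ) (p.2 + e2) := by
      have : pr α (α * (ρ - 1)) (p.2 + e2) * f (p.2 + e2) =
          pr α (α * ρ) (p.2 + e2) * |Real.sin (Real.pi * (α * (ρ - 1)))| := h5.symm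
      rw [this]
      exact mul_le_of_le_one_right (pr_nonneg _ _ _) (Real.abs_sin_le_one _)
    have h7 : pr α (α * (ρ - 1)) (p.2 + e2) ≤ 1 / f (p.2 + e2) * pr α (α * ρ) (p.2 + e2) := by
      rw [one_div_mul_eq_div, le_div_iff₀ (hfpos _)]
      exact h6
    refine h7.trans ?_
    exact mul_le_mul_of_nonneg_right (hinv _) (pr_nonneg _ _ _)
  have e4 : ((p.2 + e2 : ℕ) + 1 : ℝ) ^ 2 ≤ 4 ^ (e2 + 1) * 4 ^ (p.1 + p.2) := by
    refine (two_pow_sq _).trans ?_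
    rw [← pow_add]
    exact pow_le_pow_right₀ (by norm_num) (by omega)
  rw [e0]
  have h8 : 0 ≤ w p * ((k : ℝ) + 1) ^ (p.1 + p.2) * pr (1 / α) (1 * ρ) (p.1 + e1) :=
    mul_nonneg (mul_nonneg (hw p) (by positivity)) (pr_nonneg _ _ _)
  have h9 := pr_nonneg α (α * ρ) (p.2 + e2)
  have h10 : ((4 * k + 3 : ℕ) : ℝ) + 1 = 4 * ((k : ℝ) + 1) := by push_cast; ring
  rw [h10, mul_pow]
  calc w p * ((k : ℝ) + 1) ^ (p.1 + p.2) * pr (1 / α) (1 * ρ) (p.1 + e1) *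
        pr α (α * (ρ - 1)) (p.2 + e2)
      ≤ w p * ((k : ℝ) + 1) ^ (p.1 + p.2) * pr (1 / α) (1 * ρ) (p.1 + e1) *
        (K * (4 ^ (e2 + 1) * 4 ^ (p.1 + p.2)) * pr α (α * ρ) (p.2 + e2)) := by
        refine mul_le_mul_of_nonneg_left (e3.trans ?_) h8
        gcongr
    _ = _ := by ring

/-- The zero-one law for the comparison series. -/
theorem Cset_zero_one {α : ℝ} (hα : 0 < α) (hirr : Irrational α) (w : ℕ × ℕ → ℝ)
    (hw : ∀ p, 0 ≤ w p) (e1 e2 : ℕ) :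
    volume (Cset α w e1 e2 ∩ Ioc 0 1) = 0 ∨ volume ((Cset α w e1 e2)ᶜ ∩ Ioc 0 1) = 0 := by
  refine rot_zero_one (1 / α) (by positivity) ?_ _ (measurable_Cset α w e1 e2)
    (inv_1 hα.ne' w hw e1 e2) (inv_2 hα w hw e1 e2)
  rw [one_div]
  exact hirr.inv

end Pool.Agent.Q211.ZS
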